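import Pool.Agent.Results.MP_65fbb9_lc.Coincidence

/-!
# Families of almost orthogonal words
-/

set_option autoImplicit false

namespace Pool.Agent.R623.Gam

open Pool.Agent.Results.MP_65fbb9_lc.Coincidence

theorem sum_real (x y : ℝ) (f : ℕ → ℕ) (hf : ∀ i, f i < 2) (N : ℕ) :
    ∑ v ∈ Finset.range (2 ^ N), x ^ dd (bt v) f N * y ^ (N - dd (bt v) f N) = (x + y) ^ N := by
  induction N with
  | zero => simp [dd, nsum]
  | succ N ih =>
    rw [pow_succ 2, mul_two, Finset.sum_range_add]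
    have e1 : ∀ v ∈ Finset.range (2 ^ N), bt v N = 0 := by
      intro v hv
      unfold bt
      rw [Nat.div_eq_of_lt (Finset.mem_range.1 hv)]
    have e2 : ∀ v ∈ Finset.range (2 ^ N), bt (2 ^ N + v) N = 1 := by
      intro v hv
      have h1 : 2 ^ N + v = v + 1 * 2 ^ N := by ring
      have h2 := bt_high v 1 N 0 (Finset.mem_range.1 hv)
      rw [add_zero] at h2
      rw [h1, h2]
      simp [bt]
    have e3 : ∀ v, dd (bt (2 ^ N + v)) f N = dd (bt v) f N := by
      intro v
      apply dd_congr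
      · intro i hi
        have h1 : 2 ^ N + v = v + 1 * 2 ^ N := by ring
        rw [h1, bt_low _ _ _ _ hi]
      · intro i _
        rfl
    have hle : ∀ v, dd (bt v) f N ≤ N := fun v => dd_le _ _ _
    have hfN := hf N
    have hcase : f N = 0 ∨ f N = 1 := by omega
    -- the two kinds of sums
    have sy : ∀ g : ℕ → ℕ, (∀ v ∈ Finset.range (2 ^ N), g v = dd (bt v) f N) →
        ∑ v ∈ Finset.range (2 ^ N), x ^ g v * y ^ (N + 1 - g v) = y * (x + y) ^ N := by
      intro g hg
      rw [← ih, Finset.mul_sum]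
      refine Finset.sum_congr rfl fun v hv => ?_
      rw [hg v hv]
      have : N + 1 - dd (bt v) f N = (N - dd (bt v) f N) + 1 := by
        have := hle v
        omega
      rw [this, pow_succ]
      ring
    have sx : ∀ g : ℕ → ℕ, (∀ v ∈ Finset.range (2 ^ N), g v = dd (bt v) f N + 1) →
        ∑ v ∈ Finset.range (2 ^ N), x ^ g v * y ^ (N + 1 - g v) = x * (x + y) ^ N := by
      intro g hg
      rw [← ih, Finset.mul_sum]
      refine Finset.sum_congr rfl fun v hv => ?_
      rw [hg v hv]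
      have : N + 1 - (dd (bt v) f N + 1) = N - dd (bt v) f N := by omega
      rw [this, pow_succ]
      ring
    rcases hcase with h0 | h0
    · rw [sy (fun v => dd (bt v) f (N + 1)) (fun v hv => by
          rw [dd_succ, e1 v hv, h0]; simp [ind]),
        sx (fun v => dd (bt (2 ^ N + v)) f (N + 1)) (fun v hv => by
          rw [dd_succ, e2 v hv, h0, e3]; simp [ind])]
      ring
    · rw [sx (fun v => dd (bt v) f (N + 1)) (fun v hv => by
          rw [dd_succ, e1 v hv, h0]; simp [ind]),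
        sy (fun v => dd (bt (2 ^ N + v)) f (N + 1)) (fun v hv => by
          rw [dd_succ, e2 v hv, h0, e3]; simp [ind])]
      ring

/-- the exponential sum -/
theorem sum_exp (t : ℝ) (f : ℕ → ℕ) (hf : ∀ i, f i < 2) (N : ℕ) :
    ∑ v ∈ Finset.range (2 ^ N), Real.exp (t * (2 * dd (bt v) f N - N)) ≤
      2 ^ N * Real.exp (N * t ^ 2 / 2) := by
  have h1 : ∑ v ∈ Finset.range (2 ^ N), Real.exp (t * (2 * dd (bt v) f N - N)) =
      (Real.exp t + Real.exp (-t)) ^ N := by
    rw [← sum_real (Real.exp t) (Real.exp (-t)) f hf N]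
    refine Finset.sum_congr rfl fun v _ => ?_
    rw [← Real.exp_nat_mul, ← Real.exp_nat_mul, ← Real.exp_add]
    congr 1
    rw [Nat.cast_sub (dd_le _ _ _)]
    ring
  rw [h1]
  have h2 : Real.exp t + Real.exp (-t) = 2 * Real.cosh t := by
    rw [Real.cosh_eq]
    ring
  rw [h2, mul_pow]
  have h3 : Real.cosh t ^ N ≤ Real.exp (N * t ^ 2 / 2) := by
    have h4 : Real.exp (N * t ^ 2 / 2) = Real.exp (t ^ 2 / 2) ^ N := by
      rw [← Real.exp_nat_mul]
      congr 1
      ring
    rw [h4]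
    exact pow_le_pow_left₀ (Real.cosh_pos t).le (Real.cosh_le_exp_half_sq t) N
  exact mul_le_mul_of_nonneg_left h3 (by positivity)

theorem tail_card (d : ℝ) (f : ℕ → ℕ) (hf : ∀ i, f i < 2) (N : ℕ) :
    (((Finset.range (2 ^ N)).filter fun v => d ^ 2 * N ≤ d * (2 * dd (bt v) f N - N)).card : ℝ) ≤
      2 ^ N * Real.exp (-(N * d ^ 2 / 2)) := by
  have h1 : (((Finset.range (2 ^ N)).filter fun v =>
      d ^ 2 * N ≤ d * (2 * dd (bt v) f N - N)).card : ℝ) * Real.exp (d ^ 2 * N) ≤
      2 ^ N * Real.exp (N * d ^ 2 / 2) := by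
    rw [← nsmul_eq_mul, ← Finset.sum_const]
    calc ∑ _v ∈ (Finset.range (2 ^ N)).filter (fun v => d ^ 2 * N ≤ d * (2 * dd (bt v) f N - N)),
          Real.exp (d ^ 2 * N)
        ≤ ∑ v ∈ (Finset.range (2 ^ N)).filter (fun v => d ^ 2 * N ≤ d * (2 * dd (bt v) f N - N)),
            Real.exp (d * (2 * dd (bt v) f N - N)) := by
          refine Finset.sum_le_sum fun v hv => ?_
          exact Real.exp_le_exp.2 (Finset.mem_filter.1 hv).2
      _ ≤ ∑ v ∈ Finset.range (2 ^ N), Real.exp (d * (2 * dd (bt v) f N - N)) :=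
          Finset.sum_le_sum_of_subset_of_nonneg (Finset.filter_subset _ _)
            fun _ _ _ => (Real.exp_pos _).le
      _ ≤ _ := sum_exp d f hf N
  have h2 : Real.exp (N * d ^ 2 / 2) = Real.exp (-(N * d ^ 2 / 2)) * Real.exp (d ^ 2 * N) := by
    rw [← Real.exp_add]
    congr 1
    ring
  rw [h2, ← mul_assoc] at h1
  exact le_of_mul_le_mul_right h1 (Real.exp_pos _)

/-- `v` is almost orthogonal to `f` -/
def Ort (d : ℝ) (f g : ℕ → ℕ) (N : ℕ) : Prop := |(N : ℝ) - 2 * dd f g N| ≤ d * N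

theorem exists_ort {d : ℝ} (hd : 0 < d) (F : ℕ → ℕ → ℕ) (hF : ∀ b i, F b i < 2) (N K : ℕ)
    (h : 2 * (K : ℝ) < Real.exp (N * d ^ 2 / 2)) :
    ∃ v < 2 ^ N, ∀ b < K, Ort d (bt v) (F b) N := by
  classical
  by_contra hc
  push Not at hc
  have h1 : Finset.range (2 ^ N) ⊆ (Finset.range K).biUnion
      (fun b => ((Finset.range (2 ^ N)).filter fun v =>
          d ^ 2 * N ≤ d * (2 * dd (bt v) (F b) N - N)) ∪
        ((Finset.range (2 ^ N)).filter fun v =>
          (-d) ^ 2 * N ≤ (-d) * (2 * dd (bt v) (F b) N - N))) := by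
    intro v hv
    obtain ⟨b, hb, hd'⟩ := hc v (Finset.mem_range.1 hv)
    rw [Finset.mem_biUnion]
    refine ⟨b, Finset.mem_range.2 hb, ?_⟩
    unfold Ort at hd'
    rw [not_le, lt_abs] at hd'
    rw [Finset.mem_union, Finset.mem_filter, Finset.mem_filter]
    rcases hd' with h2 | h2
    · right
      refine ⟨hv, ?_⟩
      nlinarith
    · left
      refine ⟨hv, ?_⟩
      nlinarith
  have h2 := Finset.card_le_card h1
  rw [Finset.card_range] at h2
  have h3 := h2.trans Finset.card_biUnion_le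
  have h4 : ((2 : ℝ) ^ N) ≤ ∑ b ∈ Finset.range K, (2 ^ N * Real.exp (-(N * d ^ 2 / 2)) +
      2 ^ N * Real.exp (-(N * d ^ 2 / 2))) := by
    have h5 : ((2 ^ N : ℕ) : ℝ) ≤ ((∑ b ∈ Finset.range K,
      (((Finset.range (2 ^ N)).filter fun v =>
          d ^ 2 * N ≤ d * (2 * dd (bt v) (F b) N - N)) ∪
        ((Finset.range (2 ^ N)).filter fun v =>
          (-d) ^ 2 * N ≤ (-d) * (2 * dd (bt v) (F b) N - N))).card : ℕ) : ℝ) := by
      exact_mod_cast h3
    push_cast at h5
    refine h5.trans (Finset.sum_le_sum fun b _ => ?_)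
    have h6 := tail_card d (F b) (hF b) N
    have h7 := tail_card (-d) (F b) (hF b) N
    have h8 := Finset.card_union_le ((Finset.range (2 ^ N)).filter fun v =>
          d ^ 2 * N ≤ d * (2 * dd (bt v) (F b) N - N)) ((Finset.range (2 ^ N)).filter fun v =>
          (-d) ^ 2 * N ≤ (-d) * (2 * dd (bt v) (F b) N - N))
    have h9 : ((((Finset.range (2 ^ N)).filter fun v =>
          d ^ 2 * N ≤ d * (2 * dd (bt v) (F b) N - N)) ∪
        ((Finset.range (2 ^ N)).filter fun v =>
          (-d) ^ 2 * N ≤ (-d) * (2 * dd (bt v) (F b) N - N))).card : ℝ) ≤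
        (((Finset.range (2 ^ N)).filter fun v =>
          d ^ 2 * N ≤ d * (2 * dd (bt v) (F b) N - N)).card : ℝ) +
        (((Finset.range (2 ^ N)).filter fun v =>
          (-d) ^ 2 * N ≤ (-d) * (2 * dd (bt v) (F b) N - N)).card : ℝ) := by
      exact_mod_cast h8
    rw [show (N : ℝ) * (-d) ^ 2 / 2 = N * d ^ 2 / 2 by ring] at h7
    linarith
  rw [Finset.sum_const, Finset.card_range, nsmul_eq_mul] at h4
  have h5 : (K : ℝ) * (2 ^ N * Real.exp (-(N * d ^ 2 / 2)) + 2 ^ N * Real.exp (-(N * d ^ 2 / 2))) =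
      2 ^ N * (2 * K * Real.exp (-(N * d ^ 2 / 2))) := by ring
  rw [h5] at h4
  have h6 : 2 * (K : ℝ) * Real.exp (-(N * d ^ 2 / 2)) < 1 := by
    rw [Real.exp_neg, ← div_eq_mul_inv, div_lt_one (Real.exp_pos _)]
    exact h
  have h7 : (0 : ℝ) < 2 ^ N := by positivity
  nlinarith

theorem exists_codeR {d : ℝ} (hd : 0 < d) (N M : ℕ)
    (hM : 2 * (M : ℝ) < Real.exp (N * d ^ 2 / 2)) (K : ℕ) (hK : K ≤ M) :
    ∃ E < 2 ^ (N * K), ∀ a < K, ∀ b < a, Ort d (cw E N a) (cw E N b) N := by
  induction K with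
  | zero => exact ⟨0, by simp, by intro a ha; omega⟩
  | succ K ih =>
    obtain ⟨E, hE, hdE⟩ := ih (by omega)
    obtain ⟨v, hv, hfar⟩ := exists_ort hd (fun b => cw E N b) (fun b i => bt_lt _ _)
      N K (lt_of_le_of_lt (by
        have : (K : ℝ) ≤ M := by exact_mod_cast (by omega : K ≤ M)
        linarith) hM)
    have hlow : ∀ a < K, ∀ i < N, cw (E + v * 2 ^ (N * K)) N a i = cw E N a i := by
      intro a ha i hi
      unfold cw
      apply bt_low
      have : N * a + N ≤ N * K := by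
        rw [← Nat.mul_succ]
        exact Nat.mul_le_mul_left _ ha
      omega
    have hhigh : ∀ i, cw (E + v * 2 ^ (N * K)) N K i = bt v i := by
      intro i
      unfold cw
      exact bt_high _ _ _ _ hE
    refine ⟨E + v * 2 ^ (N * K), ?_, ?_⟩
    · have e : N * (K + 1) = N * K + N := by ring
      rw [e, pow_add]
      have h3 : (v + 1) * 2 ^ (N * K) ≤ 2 ^ N * 2 ^ (N * K) :=
        Nat.mul_le_mul_right _ hv
      nlinarith
    · intro a ha b hb
      unfold Ort
      rcases Nat.lt_or_ge a K with h | h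
      · rw [dd_congr (hlow a h) (hlow b (by omega))]
        exact hdE a h b hb
      · have e : a = K := by omega
        subst e
        rw [dd_congr (fun i _ => hhigh i) (hlow b hb)]
        exact hfar b hb

end Pool.Agent.R623.Gam
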