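import Pool.Agent.R623.G.Par

/-!
# Decoding
-/

set_option autoImplicit false

namespace Pool.Agent.R623.Gam

open Pool.Agent.Results.MP_65fbb9_lc.Coincidence

/-- the part of `Y` in the block `n` -/
def Yw (Y : ℕ → Bool) (n i : ℕ) : ℕ := ind (Y (nsum n LL + i))

theorem Yw_lt (Y : ℕ → Bool) (n i : ℕ) : Yw Y n i < 2 := by
  unfold Yw
  cases Y (nsum n LL + i) <;> simp [ind]

/-- the correlation of `Y` and the `a`-th word in the block `n` -/
def uu (E : ℕ → ℕ) (Y : ℕ → Bool) (n a : ℕ) : ℕ :=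
  (LL n - 2 * dd (Yw Y n) (cw (E n) (LL n) a) (LL n)) +
    (2 * dd (Yw Y n) (cw (E n) (LL n) a) (LL n) - LL n)

/-- the `a`-th word is correlated with `Y` in the block `n` -/
def badp (E : ℕ → ℕ) (Y : ℕ → Bool) (n a : ℕ) : Bool :=
  decide (2 * (LL n * LL n) ≤ (n + 1) * (uu E Y n a * uu E Y n a))

/-- the number of earlier correlated words -/
def rank (E : ℕ → ℕ) (Y : ℕ → Bool) (n a : ℕ) : ℕ := nsum a fun b => ind (badp E Y n b)

/-- the `j`-th digit of `a` -/
def dgt (n a j : ℕ) : ℕ := a / 2 ^ (BB n * j) % 2 ^ BB n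

/-- the values proposed at block `n`, slot `j` -/
def xv (E : ℕ → ℕ) (Y : ℕ → Bool) (n j : ℕ) : ℕ :=
  nsum (MM n) fun a => ind (badp E Y n a && decide (rank E Y n a = j)) * dgt n a j

/-- the function which proposes the digits of the correlated words -/
def xx (E : ℕ → ℕ) (Y : ℕ → Bool) (m : ℕ) : ℕ := xv E Y (blk KK m) (m - nsum (blk KK m) KK)

theorem cuu {O : Set (ℕ →. ℕ)} {E : ℕ → ℕ} {Y : ℕ → Bool} (hE : ComputableIn O E)
    (hY : ComputableIn O Y) : ComputableIn O fun p : ℕ × ℕ => uu E Y p.1 p.2 := by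
  have hL : ComputableIn O fun p : ℕ × ℕ => LL p.1 := cLL ci_fst
  have hL0 : ComputableIn O LL := cLL (f := fun n : ℕ => n) ComputableIn.id
  have h1 : ComputableIn O fun q : (ℕ × ℕ) × ℕ => Yw Y q.1.1 q.2 :=
    cind (ci_comp (f := Y) hY (cadd (cnsum hL0 (f := fun q : (ℕ × ℕ) × ℕ => q.1.1)
      (ci_comp ci_fst ci_fst)) ci_snd))
  have h2 : ComputableIn O fun q : (ℕ × ℕ) × ℕ => cw (E q.1.1) (LL q.1.1) q.1.2 q.2 :=
    ccw (ci_comp (f := E) hE (ci_comp ci_fst ci_fst))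
      (ci_comp (f := fun p : ℕ × ℕ => LL p.1) hL ci_fst) (ci_comp ci_snd ci_fst) ci_snd
  have h3 : ComputableIn O fun p : ℕ × ℕ => dd (Yw Y p.1) (cw (E p.1) (LL p.1) p.2) (LL p.1) :=
    cdd (f := fun p : ℕ × ℕ => Yw Y p.1) (g := fun p : ℕ × ℕ => cw (E p.1) (LL p.1) p.2)
      h1 h2 hL
  have h4 := cmul (cconst (O := O) (α := ℕ × ℕ) 2) h3
  exact cadd (csub hL h4) (csub h4 hL)

theorem cbadp {O : Set (ℕ →. ℕ)} {E : ℕ → ℕ} {Y : ℕ → Bool} (hE : ComputableIn O E)
    (hY : ComputableIn O Y) : ComputableIn O fun p : ℕ × ℕ => badp E Y p.1 p.2 := by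
  have hL : ComputableIn O fun p : ℕ × ℕ => LL p.1 := cLL ci_fst
  have hu := cuu hE hY
  exact cle (cmul (cconst 2) (cmul hL hL)) (cmul (cadd ci_fst (cconst 1)) (cmul hu hu))

theorem crank {O : Set (ℕ →. ℕ)} {E : ℕ → ℕ} {Y : ℕ → Bool} (hE : ComputableIn O E)
    (hY : ComputableIn O Y) : ComputableIn O fun p : ℕ × ℕ => rank E Y p.1 p.2 :=
  nsum_comp (g := fun p : ℕ × ℕ => p.2) (q := fun p b => ind (badp E Y p.1 b)) ci_snd
    (cind (ci_comp (f := fun p : ℕ × ℕ => badp E Y p.1 p.2)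
      (g := fun q : (ℕ × ℕ) × ℕ => (q.1.1, q.2)) (cbadp hE hY)
      (ci_pair (ci_comp ci_fst ci_fst) ci_snd)))

theorem cdgt {α : Type} [Primcodable α] {O : Set (ℕ →. ℕ)} {f g h : α → ℕ}
    (hf : ComputableIn O f) (hg : ComputableIn O g) (hh : ComputableIn O h) :
    ComputableIn O fun a => dgt (f a) (g a) (h a) :=
  cmod (cdiv hg (cpw 2 (f := fun a => BB (f a) * h a) (cmul (cBB hf) hh)))
    (cpw 2 (f := fun a => BB (f a)) (cBB hf))

theorem cxv1 {O : Set (ℕ →. ℕ)} {E : ℕ → ℕ} {Y : ℕ → Bool} (hE : ComputableIn O E)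
    (hY : ComputableIn O Y) : ComputableIn O fun q : (ℕ × ℕ) × ℕ => badp E Y q.1.1 q.2 :=
  ci_comp (f := fun p : ℕ × ℕ => badp E Y p.1 p.2) (g := fun q : (ℕ × ℕ) × ℕ => (q.1.1, q.2))
    (cbadp hE hY) (ci_pair (ci_comp ci_fst ci_fst) ci_snd)

theorem cxv2 {O : Set (ℕ →. ℕ)} {E : ℕ → ℕ} {Y : ℕ → Bool} (hE : ComputableIn O E)
    (hY : ComputableIn O Y) : ComputableIn O fun q : (ℕ × ℕ) × ℕ => rank E Y q.1.1 q.2 :=
  ci_comp (f := fun p : ℕ × ℕ => rank E Y p.1 p.2) (g := fun q : (ℕ × ℕ) × ℕ => (q.1.1, q.2))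
    (crank hE hY) (ci_pair (ci_comp ci_fst ci_fst) ci_snd)

theorem cxv3 {O : Set (ℕ →. ℕ)} {E : ℕ → ℕ} {Y : ℕ → Bool} (hE : ComputableIn O E)
    (hY : ComputableIn O Y) : ComputableIn O fun q : (ℕ × ℕ) × ℕ =>
      ind (badp E Y q.1.1 q.2 && decide (rank E Y q.1.1 q.2 = q.1.2)) :=
  cind (cand (cxv1 hE hY) (ceqN (cxv2 hE hY) (ci_comp ci_snd ci_fst)))

theorem cxv4 {O : Set (ℕ →. ℕ)} : ComputableIn O fun q : (ℕ × ℕ) × ℕ => dgt q.1.1 q.2 q.1.2 :=
  cdgt (f := fun q : (ℕ × ℕ) × ℕ => q.1.1) (g := fun q : (ℕ × ℕ) × ℕ => q.2)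
    (h := fun q : (ℕ × ℕ) × ℕ => q.1.2) (ci_comp ci_fst ci_fst) ci_snd (ci_comp ci_snd ci_fst)

theorem cxv5 {O : Set (ℕ →. ℕ)} {E : ℕ → ℕ} {Y : ℕ → Bool} (hE : ComputableIn O E)
    (hY : ComputableIn O Y) : ComputableIn O fun q : (ℕ × ℕ) × ℕ =>
      ind (badp E Y q.1.1 q.2 && decide (rank E Y q.1.1 q.2 = q.1.2)) * dgt q.1.1 q.2 q.1.2 :=
  cmul (cxv3 hE hY) cxv4

theorem cxv6 {O : Set (ℕ →. ℕ)} : ComputableIn O fun p : ℕ × ℕ => MM p.1 :=
  cMM (f := fun p : ℕ × ℕ => p.1) ci_fst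

theorem cxv {O : Set (ℕ →. ℕ)} {E : ℕ → ℕ} {Y : ℕ → Bool} (hE : ComputableIn O E)
    (hY : ComputableIn O Y) : ComputableIn O fun p : ℕ × ℕ => xv E Y p.1 p.2 :=
  nsum_comp (g := fun p : ℕ × ℕ => MM p.1)
    (q := fun (p : ℕ × ℕ) (a : ℕ) => ind (badp E Y p.1 a && decide (rank E Y p.1 a = p.2)) *
      dgt p.1 a p.2) cxv6 (cxv5 hE hY)

theorem cxx {O : Set (ℕ →. ℕ)} {E : ℕ → ℕ} {Y : ℕ → Bool} (hE : ComputableIn O E)
    (hY : ComputableIn O Y) : ComputableIn O (xx E Y) := by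
  have hK : ComputableIn O KK := cKK (f := fun n : ℕ => n) ComputableIn.id
  have hb : ComputableIn O fun m : ℕ => blk KK m := cblk hK (f := fun m : ℕ => m) ComputableIn.id
  have hs : ComputableIn O fun m : ℕ => m - nsum (blk KK m) KK :=
    csub ComputableIn.id (cnsum hK (f := fun m : ℕ => blk KK m) hb)
  exact ci_comp (f := fun p : ℕ × ℕ => xv E Y p.1 p.2)
    (g := fun m : ℕ => (blk KK m, m - nsum (blk KK m) KK)) (cxv hE hY) (ci_pair hb hs)

section

variable {E : ℕ → ℕ} {Y : ℕ → Bool}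
  (hE : ∀ n, ∀ a < MM n, ∀ b < a,
    Ort (1 / ((n : ℝ) + 1)) (cw (E n) (LL n) a) (cw (E n) (LL n) b) (LL n))

include hE

theorem rank_le {n a : ℕ} (ha : a < MM n) (hb : badp E Y n a = true) : rank E Y n a ≤ n := by
  classical
  set T := (Finset.range (a + 1)).filter fun b => badp E Y n b = true with hTdef
  have hn : (0 : ℝ) < (n : ℝ) + 1 := by positivity
  have hcard : T.card = rank E Y n a + 1 := by
    have h1 : T.card = rank E Y n (a + 1) := by
      unfold rank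
      rw [nsum_ind]
    rw [h1]
    show rank E Y n a + ind (badp E Y n a) = rank E Y n a + 1
    rw [hb]
    rfl
  have hfew := few (LL_pos n) (w := cw (E n) (LL n)) (fun a i => bt_lt _ _) (y := Yw Y n)
    (Yw_lt Y n) (d := 1 / ((n : ℝ) + 1)) (e := Real.sqrt (2 / ((n : ℝ) + 1))) (by positivity)
    (Real.sqrt_nonneg _) T ?_ ?_
  · rw [Real.sq_sqrt (by positivity)] at hfew
    have e1 : 2 / ((n : ℝ) + 1) - 1 / ((n : ℝ) + 1) = 1 / ((n : ℝ) + 1) := by
      field_simp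
      norm_num
    rw [e1, mul_one_div, div_le_one hn] at hfew
    have h2 : T.card ≤ n + 1 := by exact_mod_cast hfew
    omega
  · intro b hb c hc hbc
    have hb' : b < MM n := by
      have := Finset.mem_range.1 (Finset.mem_filter.1 hb).1
      omega
    have hc' : c < MM n := by
      have := Finset.mem_range.1 (Finset.mem_filter.1 hc).1
      omega
    rcases Nat.lt_or_gt_of_ne hbc with h | h
    · rw [dd_comm]
      exact hE n c hc' b h
    · exact hE n b hb' c h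
  · intro b hb
    have h1 := (Finset.mem_filter.1 hb).2
    unfold badp at h1
    rw [decide_eq_true_eq, ← Nat.cast_le (α := ℝ)] at h1
    unfold uu at h1
    rw [Nat.cast_mul, Nat.cast_mul, Nat.cast_mul, Nat.cast_mul, abs_cast] at h1
    rw [← Real.sqrt_sq (abs_nonneg ((LL n : ℝ) - 2 * dd (Yw Y n) (cw (E n) (LL n) b) (LL n))),
      ← Real.sqrt_sq (Nat.cast_nonneg (α := ℝ) (LL n)), ← Real.sqrt_mul (by positivity)]
    apply Real.sqrt_le_sqrt
    rw [Real.sqrt_sq (Nat.cast_nonneg (α := ℝ) (LL n)), div_mul_eq_mul_div, div_le_iff₀ hn]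
    push_cast at h1
    nlinarith [h1]

theorem xx_spec {n a : ℕ} (ha : a < MM n) (hb : badp E Y n a = true) :
    xx E Y (nsum n KK + rank E Y n a) = dgt n a (rank E Y n a) := by
  have hr := rank_le hE ha hb
  have hblk : blk KK (nsum n KK + rank E Y n a) = n := by
    refine blk_eq KK_pos (by omega) ?_
    rw [nsum_succ]
    unfold KK
    omega
  unfold xx
  rw [hblk, Nat.add_sub_cancel_left]
  unfold xv
  rw [nsum_eq, Finset.sum_eq_single a]
  · rw [ind_true (by simp [hb]), one_mul]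
  · intro c hc hne
    rw [ind_false, zero_mul]
    rw [Bool.and_eq_false_iff]
    by_contra h
    push Not at h
    obtain ⟨h1, h2⟩ := h
    have h1 : badp E Y n c = true := by simpa using h1
    have h2 : rank E Y n c = rank E Y n a := by simpa using h2
    have key : ∀ b b', b < b' → badp E Y n b = true → rank E Y n b < rank E Y n b' := by
      intro b b' hbb hb1
      have h3 : rank E Y n (b + 1) ≤ rank E Y n b' := nsum_mono _ hbb
      have h4 : rank E Y n (b + 1) = rank E Y n b + 1 := by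
        show rank E Y n b + ind (badp E Y n b) = _
        rw [hb1]
        rfl
      omega
    rcases Nat.lt_or_gt_of_ne hne with h | h
    · have := key c a h h1
      omega
    · have := key a c h hb
      omega
  · intro h
    exact absurd (Finset.mem_range.2 ha) h

end

/-- the message in the block `n` -/
def msg (y : ℕ → ℕ) (n : ℕ) : ℕ := nsum (n + 1) fun j => y (nsum n KK + j) * 2 ^ (BB n * j)

theorem cmsg {O : Set (ℕ →. ℕ)} {y : ℕ → ℕ} (hy : ComputableIn O y) :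
    ComputableIn O (msg y) := by
  have hK : ComputableIn O KK := cKK (f := fun n : ℕ => n) ComputableIn.id
  have h1 : ComputableIn O fun p : ℕ × ℕ => y (nsum p.1 KK + p.2) :=
    ci_comp (f := y) hy (cadd (cnsum hK (f := fun p : ℕ × ℕ => p.1) ci_fst) ci_snd)
  exact nsum_comp (g := fun n : ℕ => n + 1)
    (q := fun (n : ℕ) (j : ℕ) => y (nsum n KK + j) * 2 ^ (BB n * j))
    (cadd ComputableIn.id (cconst 1))
    (cmul h1 (cpw 2 (f := fun p : ℕ × ℕ => BB p.1 * p.2) (cmul (cBB ci_fst) ci_snd)))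

/-- the bound on the values -/
def hh (m : ℕ) : ℕ := BB (blk KK m)

theorem msg_facts {y : ℕ → ℕ} (hy : ∀ m, y m < 2 ^ hh m) (n : ℕ) :
    msg y n < MM n ∧ ∀ j ≤ n, dgt n (msg y n) j = y (nsum n KK + j) := by
  classical
  obtain ⟨c, hc⟩ : ∃ c : ℕ → ℕ, ∀ j, c j = if j ≤ n then y (nsum n KK + j) else 0 :=
    ⟨_, fun _ => rfl⟩
  have hcD : ∀ j, c j < 2 ^ BB n := by
    intro j
    rw [hc]
    split_ifs with h
    · have h1 := hy (nsum n KK + j)
      have h2 : hh (nsum n KK + j) = BB n := by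
        unfold hh
        rw [blk_eq KK_pos (n := n) (by omega)]
        rw [nsum_succ]
        unfold KK
        omega
      rwa [h2] at h1
    · positivity
  have hm : msg y n = nsum (n + 1) fun j => c j * (2 ^ BB n) ^ j := by
    unfold msg
    refine nsum_congr fun j hj => ?_
    rw [hc, if_pos (by omega), pow_mul]
  constructor
  · rw [hm]
    unfold MM
    rw [pow_mul]
    exact digs_lt hcD (n + 1)
  · intro j hj
    unfold dgt
    rw [hm, pow_mul, digs_get hcD (by omega), hc, if_pos hj]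

/-- Messages which avoid the function `xx` give uncorrelated words. -/
theorem not_bad {E : ℕ → ℕ} {Y : ℕ → Bool}
    (hE : ∀ n, ∀ a < MM n, ∀ b < a,
      Ort (1 / ((n : ℝ) + 1)) (cw (E n) (LL n) a) (cw (E n) (LL n) b) (LL n))
    {y : ℕ → ℕ} (hy : ∀ m, y m < 2 ^ hh m)
    (hne : ∀ᶠ m in Filter.atTop, xx E Y m ≠ y m) :
    ∀ᶠ n in Filter.atTop, badp E Y n (msg y n) = false := by
  rw [Filter.eventually_atTop] at hne ⊢
  obtain ⟨m0, hm0⟩ := hne
  refine ⟨m0, fun n hn => ?_⟩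
  by_contra hb
  have hb : badp E Y n (msg y n) = true := by simpa using hb
  obtain ⟨h1, h2⟩ := msg_facts hy n
  have h3 := xx_spec hE h1 hb
  have h4 := rank_le hE h1 hb
  rw [h2 _ h4] at h3
  refine hm0 _ ?_ h3
  have := le_nsum (L := KK) KK_pos n
  omega

end Pool.Agent.R623.Gam
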