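import Pool.Agent.R623.G.Dec
import Pool.Agent.Results.MP_65fbb9_lc.PolynomialExponents

/-!
# Densities
-/

set_option autoImplicit false

namespace Pool.Agent.R623.Gam

open Pool.Agent.Results.MP_65fbb9_lc.Coincidence

/-- the set coding the messages of `y` -/
def AA (E y : ℕ → ℕ) (t : ℕ) : Bool :=
  decide (cw (E (blk LL t)) (LL (blk LL t)) (msg y (blk LL t)) (t - nsum (blk LL t) LL) = 1)

theorem cAA {E y : ℕ → ℕ} (hE : Computable E) (hy : Computable y) : Computable (AA E y) := by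
  apply computable_of_ci
  have hL : ComputableIn ∅ LL := cLL (f := fun n : ℕ => n) ComputableIn.id
  have hb : ComputableIn ∅ fun t : ℕ => blk LL t := cblk hL (f := fun m : ℕ => m) ComputableIn.id
  have h1 : ComputableIn ∅ fun t : ℕ => E (blk LL t) := ci_comp (f := E) hE.computableIn hb
  have h2 : ComputableIn ∅ fun t : ℕ => LL (blk LL t) := cLL hb
  have h3 : ComputableIn ∅ fun t : ℕ => msg y (blk LL t) :=
    ci_comp (f := msg y) (cmsg hy.computableIn) hb
  have h4 : ComputableIn ∅ fun t : ℕ => t - nsum (blk LL t) LL :=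
    csub ComputableIn.id (cnsum hL (f := fun m : ℕ => blk LL m) hb)
  exact ceqN (ccw h1 h2 h3 h4) (cconst 1)

theorem AA_block (E y : ℕ → ℕ) {n i : ℕ} (hi : i < LL n) :
    ind (AA E y (nsum n LL + i)) = cw (E n) (LL n) (msg y n) i := by
  have hb : blk LL (nsum n LL + i) = n :=
    blk_eq LL_pos (by omega) (by rw [nsum_succ]; omega)
  unfold AA
  rw [hb, Nat.add_sub_cancel_left]
  have h1 : cw (E n) (LL n) (msg y n) i < 2 := bt_lt _ _
  have h2 : cw (E n) (LL n) (msg y n) i = 0 ∨ cw (E n) (LL n) (msg y n) i = 1 := by omega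
  rcases h2 with h2 | h2 <;> rw [h2] <;> rfl

/-- agreement sign -/
noncomputable def es (Y A : ℕ → Bool) (i : ℕ) : ℝ := if Y i = A i then 1 else -1

theorem abs_es (Y A : ℕ → Bool) (i : ℕ) : |es Y A i| = 1 := by
  unfold es
  split_ifs <;> norm_num

theorem sum_es (Y A : ℕ → Bool) (t : ℕ) :
    ∑ i ∈ Finset.range t, es Y A i = 2 * (agree Y A t : ℝ) - t := by
  have h1 : (agree Y A t : ℝ) = ∑ i ∈ Finset.range t, (if Y i = A i then (1 : ℝ) else 0) := by
    unfold agree
    rw [Finset.card_filter]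
    push_cast
    rfl
  have h2 : (t : ℝ) = ∑ _i ∈ Finset.range t, (1 : ℝ) := by simp
  rw [h1, h2, Finset.mul_sum, ← Finset.sum_sub_distrib]
  refine Finset.sum_congr rfl fun i _ => ?_
  unfold es
  split_ifs <;> norm_num

theorem block_es (Y : ℕ → Bool) (E y : ℕ → ℕ) (n : ℕ) :
    ∑ i ∈ Finset.range (LL n), es Y (AA E y) (nsum n LL + i) =
      (LL n : ℝ) - 2 * dd (Yw Y n) (cw (E n) (LL n) (msg y n)) (LL n) := by
  rw [← ip_eq (g := cw (E n) (LL n) (msg y n)) (Yw_lt Y n) (fun i => bt_lt _ _)]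
  refine Finset.sum_congr rfl fun i hi => ?_
  rw [← AA_block E y (Finset.mem_range.1 hi)]
  unfold Yw es sg
  cases Y (nsum n LL + i) <;> cases AA E y (nsum n LL + i) <;> norm_num [ind]

theorem sum_blocks (e : ℕ → ℝ) (n : ℕ) :
    ∑ i ∈ Finset.range (nsum n LL), e i =
      ∑ k ∈ Finset.range n, ∑ i ∈ Finset.range (LL k), e (nsum k LL + i) := by
  induction n with
  | zero => simp [nsum]
  | succ n ih => rw [nsum_succ, Finset.sum_range_add, ih, Finset.sum_range_succ]

theorem LL_ratio {n i : ℕ} (h1 : n - Nat.sqrt n ≤ i) : LL n ≤ 32 * LL i := by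
  have hs1 : Nat.sqrt n * Nat.sqrt n ≤ n := Nat.sqrt_le n
  set s := Nat.sqrt n with hs
  have h3 : n + 1 ≤ 2 * (i + 1) := by
    have : 2 * s ≤ s * s + 1 := by nlinarith [sq_nonneg ((s : ℤ) - 1)]
    omega
  have h4 : s ≤ Nat.sqrt i + 1 := by
    rcases Nat.eq_zero_or_pos s with h0 | hpos
    · omega
    · have h5 : (s - 1) * (s - 1) ≤ i := by
        obtain ⟨r, hr⟩ : ∃ r, s = r + 1 := ⟨s - 1, by omega⟩
        rw [hr] at hs1 h1 ⊢
        have h6 : (r + 1) * (r + 1) = r * r + 2 * r + 1 := by ring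
        have h7 : r + 1 - 1 = r := by omega
        rw [h7]
        omega
      have := Nat.le_sqrt.2 h5
      omega
  have h5 : BB n ≤ 2 * BB i := by
    unfold BB
    rw [← hs, ← pow_succ']
    exact Nat.pow_le_pow_right (by norm_num) h4
  have h6 : (n + 1) * (n + 1) * ((n + 1) * (n + 1)) ≤
      16 * ((i + 1) * (i + 1) * ((i + 1) * (i + 1))) := by
    calc (n + 1) * (n + 1) * ((n + 1) * (n + 1))
        ≤ (2 * (i + 1)) * (2 * (i + 1)) * ((2 * (i + 1)) * (2 * (i + 1))) := by gcongr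
      _ = _ := by ring
  unfold LL
  calc 4 * ((n + 1) * (n + 1) * ((n + 1) * (n + 1))) * BB n
      ≤ 4 * (16 * ((i + 1) * (i + 1) * ((i + 1) * (i + 1)))) * (2 * BB i) := by gcongr
    _ = _ := by ring

theorem sqrt_mul_LL (n : ℕ) : Nat.sqrt n * LL n ≤ 32 * nsum n LL := by
  rw [nsum_eq]
  have h1 : Finset.Ico (n - Nat.sqrt n) n ⊆ Finset.range n := by
    intro i hi
    rw [Finset.mem_Ico] at hi
    exact Finset.mem_range.2 hi.2
  calc Nat.sqrt n * LL n = ∑ _i ∈ Finset.Ico (n - Nat.sqrt n) n, LL n := by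
        rw [Finset.sum_const, Nat.card_Ico, smul_eq_mul]
        congr 1
        have := Nat.sqrt_le_self n
        omega
    _ ≤ ∑ i ∈ Finset.Ico (n - Nat.sqrt n) n, 32 * LL i :=
        Finset.sum_le_sum fun i hi => LL_ratio (Finset.mem_Ico.1 hi).1
    _ = 32 * ∑ i ∈ Finset.Ico (n - Nat.sqrt n) n, LL i := by rw [Finset.mul_sum]
    _ ≤ _ := Nat.mul_le_mul_left _ (Finset.sum_le_sum_of_subset h1)

theorem LL_small {c : ℝ} (hc : 0 < c) : ∀ᶠ n in Filter.atTop, (LL n : ℝ) ≤ c * nsum n LL := by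
  obtain ⟨r, hr⟩ := exists_nat_gt (32 / c)
  rw [Filter.eventually_atTop]
  refine ⟨r * r, fun n hn => ?_⟩
  have h1 : r ≤ Nat.sqrt n := Nat.le_sqrt.2 hn
  have h2 : (Nat.sqrt n : ℝ) * LL n ≤ 32 * nsum n LL := by exact_mod_cast sqrt_mul_LL n
  have h3 : 32 / c < Nat.sqrt n := hr.trans_le (by exact_mod_cast h1)
  rw [div_lt_iff₀ hc] at h3
  have h4 : (0 : ℝ) ≤ LL n := Nat.cast_nonneg _
  have h5 : 32 * (LL n : ℝ) ≤ 32 * (c * nsum n LL) := by
    calc 32 * (LL n : ℝ) ≤ (Nat.sqrt n * c) * LL n := mul_le_mul_of_nonneg_right h3.le h4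
      _ = c * (Nat.sqrt n * LL n) := by ring
      _ ≤ c * (32 * nsum n LL) := mul_le_mul_of_nonneg_left h2 hc.le
      _ = _ := by ring
  linarith

theorem disc_small {E y : ℕ → ℕ} {Y : ℕ → Bool}
    (h : ∀ᶠ n in Filter.atTop, badp E Y n (msg y n) = false) :
    (fun n => ∑ i ∈ Finset.range (LL n), es Y (AA E y) (nsum n LL + i)) =o[Filter.atTop]
      fun n => (LL n : ℝ) := by
  rw [Asymptotics.isLittleO_iff]
  intro c hc
  obtain ⟨r, hr⟩ := exists_nat_gt (2 / c ^ 2)
  filter_upwards [h, Filter.eventually_ge_atTop r] with n hn hrn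
  rw [block_es, Real.norm_eq_abs, Real.norm_of_nonneg (Nat.cast_nonneg _)]
  unfold badp uu at hn
  rw [decide_eq_false_iff_not, not_le, ← Nat.cast_lt (α := ℝ), Nat.cast_mul, Nat.cast_mul,
    Nat.cast_mul, Nat.cast_mul, abs_cast] at hn
  push_cast at hn
  have h1 : 2 / c ^ 2 < n + 1 := by
    have : (r : ℝ) ≤ n := by exact_mod_cast hrn
    linarith
  rw [div_lt_iff₀ (by positivity)] at h1
  set u := |(LL n : ℝ) - 2 * (dd (Yw Y n) (cw (E n) (LL n) (msg y n)) (LL n) : ℝ)| with hu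
  have hu0 : 0 ≤ u := abs_nonneg _
  have hL : (0 : ℝ) < LL n := by exact_mod_cast LL_pos n
  have hn1 : (0 : ℝ) < (n : ℝ) + 1 := by positivity
  have h2 : ((n : ℝ) + 1) * (u * u) < ((n : ℝ) + 1) * ((c * LL n) * (c * LL n)) := by
    calc ((n : ℝ) + 1) * (u * u) < 2 * ((LL n : ℝ) * LL n) := hn
      _ ≤ (((n : ℝ) + 1) * c ^ 2) * ((LL n : ℝ) * LL n) :=
          mul_le_mul_of_nonneg_right h1.le (by positivity)
      _ = _ := by ring
  have h3 : u * u < (c * LL n) * (c * LL n) := lt_of_mul_lt_mul_left h2 hn1.le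
  exact (mul_self_lt_mul_self_iff hu0 (by positivity)).2 h3 |>.le

/-- Uncorrelated blocks give density one half. -/
theorem tendsto_half {E y : ℕ → ℕ} {Y : ℕ → Bool}
    (h : ∀ᶠ n in Filter.atTop, badp E Y n (msg y n) = false) :
    Filter.Tendsto (fun t : ℕ => (agree Y (AA E y) t : ℝ) / t) Filter.atTop (nhds (1 / 2)) := by
  have h1 := disc_small h
  have h2 := h1.sum_range (fun n => Nat.cast_nonneg (α := ℝ) (LL n)) (by
    have h3 : (fun n => ∑ i ∈ Finset.range n, (LL i : ℝ)) = fun n => ((nsum n LL : ℕ) : ℝ) := by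
      funext n
      rw [nsum_eq]
      push_cast
      rfl
    rw [h3]
    refine tendsto_natCast_atTop_atTop.comp ?_
    exact Filter.tendsto_atTop_mono (le_nsum LL_pos) Filter.tendsto_id)
  rw [Asymptotics.isLittleO_iff] at h2
  rw [Metric.tendsto_atTop]
  intro ε hε
  have h3 := h2 hε
  have h4 := (h3.and (LL_small (c := ε / 2) (by positivity))).and (Filter.eventually_ge_atTop 1)
  rw [Filter.eventually_atTop] at h4
  obtain ⟨n0, hn0⟩ := h4
  refine ⟨nsum n0 LL + 1, fun t ht => ?_⟩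
  obtain ⟨ha, hb⟩ := blk_spec LL_pos t
  set n := blk LL t with hn
  have hn0n : n0 ≤ n := by
    by_contra hc
    have := nsum_mono LL (show n + 1 ≤ n0 by omega)
    omega
  obtain ⟨⟨h5, h6⟩, h7⟩ := hn0 n hn0n
  have htpos : (0 : ℝ) < t := by
    have : 0 < t := by omega
    exact_mod_cast this
  have hS : (0 : ℝ) ≤ nsum n LL := Nat.cast_nonneg _
  have hSt : (nsum n LL : ℝ) ≤ t := by exact_mod_cast ha
  have e1 : ∑ i ∈ Finset.range n, (LL i : ℝ) = (nsum n LL : ℕ) := by
    rw [nsum_eq]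
    push_cast
    rfl
  rw [← sum_blocks (es Y (AA E y)), e1, Real.norm_eq_abs, Real.norm_of_nonneg hS] at h5
  have e2 : ∑ i ∈ Finset.range t, es Y (AA E y) i =
      ∑ i ∈ Finset.range (nsum n LL), es Y (AA E y) i +
        ∑ i ∈ Finset.range (t - nsum n LL), es Y (AA E y) (nsum n LL + i) := by
    rw [← Finset.sum_range_add]
    congr 2
    omega
  have h8 : |∑ i ∈ Finset.range (t - nsum n LL), es Y (AA E y) (nsum n LL + i)| ≤
      ε / 2 * nsum n LL := by
    refine (Finset.abs_sum_le_sum_abs _ _).trans ?_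
    rw [Finset.sum_congr rfl fun i _ => abs_es Y (AA E y) (nsum n LL + i)]
    rw [Finset.sum_const, Finset.card_range, nsmul_eq_mul, mul_one]
    refine le_trans ?_ h6
    rw [nsum_succ] at hb
    exact_mod_cast (by omega : t - nsum n LL ≤ LL n)
  have h9 : |2 * (agree Y (AA E y) t : ℝ) - t| ≤ ε * t + ε / 2 * t := by
    rw [← sum_es, e2]
    refine (abs_add_le _ _).trans ?_
    have := mul_le_mul_of_nonneg_left hSt hε.le
    have := mul_le_mul_of_nonneg_left hSt (half_pos hε).le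
    linarith
  rw [Real.dist_eq]
  have e3 : (agree Y (AA E y) t : ℝ) / t - 1 / 2 = (2 * (agree Y (AA E y) t : ℝ) - t) / (2 * t) := by
    field_simp
  rw [e3, abs_div, abs_of_pos (by positivity : (0 : ℝ) < 2 * t), div_lt_iff₀ (by positivity)]
  have : 0 < ε * t := by positivity
  linarith

/-- the bound on the values is large enough, and not too large -/
theorem hh_bounds : (∀ᶠ m : ℕ in Filter.atTop, ∀ t : ℕ, t ^ 4 ≤ m → 2 ^ t ≤ hh m) ∧
    ∀ᶠ m : ℕ in Filter.atTop, hh m ≤ 2 ^ (m ^ 4) := by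
  constructor
  · refine Filter.Eventually.of_forall fun m t ht => ?_
    obtain ⟨_, hb⟩ := blk_spec KK_pos m
    unfold hh BB
    refine Nat.pow_le_pow_right (by norm_num) ?_
    rw [Nat.le_sqrt]
    set n := blk KK m with hn
    have h1 : nsum (n + 1) KK ≤ (n + 1) * (n + 1) := by
      have h2 : ∀ k, nsum k KK ≤ k * k := by
        intro k
        induction k with
        | zero => simp [nsum]
        | succ k ih =>
          have h3 : KK k = k + 1 := rfl
          rw [nsum_succ, h3]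
          nlinarith
      exact h2 (n + 1)
    by_contra hc
    have h3 : n + 1 ≤ t * t := by omega
    have h4 : (n + 1) * (n + 1) ≤ (t * t) * (t * t) := Nat.mul_le_mul h3 h3
    have h5 : (t * t) * (t * t) = t ^ 4 := by ring
    omega
  · filter_upwards [Filter.eventually_ge_atTop 1] with m hm
    unfold hh BB
    refine Nat.pow_le_pow_right (by norm_num) ?_
    obtain ⟨ha, _⟩ := blk_spec KK_pos m
    have h1 : Nat.sqrt (blk KK m) ≤ blk KK m := Nat.sqrt_le_self _
    have h2 : blk KK m ≤ nsum (blk KK m) KK := le_nsum KK_pos _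
    have h3 : m ≤ m ^ 4 := Nat.le_self_pow (by norm_num) m
    omega

/-- **Main theorem.** -/
theorem main {X : Set ℕ}
    (hX : X ∉ Pool.Agent.Results.MP_65fbb9_lc.PolynomialExponents.DSim 0)
    {Y : ℕ → Bool} (hY : ComputableIn {orc X} Y) :
    ∃ A : ℕ → Bool, Computable A ∧
      Filter.Tendsto (fun t : ℕ => (agree Y A t : ℝ) / t) Filter.atTop (nhds (1 / 2)) := by
  obtain ⟨E, hE, hgood⟩ := exists_codes'
  have h1 := Pool.Agent.Results.MP_65fbb9_lc.PolynomialExponents.result.1 hh 4 (by norm_num)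
    hh_bounds.1 hh_bounds.2
  rw [← h1] at hX
  have h2 : ¬ ∀ y : ℕ → ℕ, Computable y → (∀ n, y n < 2 ^ hh n) →
      ∃ᶠ n in Filter.atTop, xx E Y n = y n := by
    intro hc
    exact hX ⟨xx E Y, cxx hE.computableIn hY, hc⟩
  push Not at h2
  obtain ⟨y, hy, hyb, hne⟩ := h2
  refine ⟨AA E y, cAA hE hy, tendsto_half (not_bad hgood hyb ?_)⟩
  exact hne

end Pool.Agent.R623.Gam
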