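import Pool.Agent.R623.G.Code

/-!
# Few words of an almost orthogonal family are correlated with a given word
-/

set_option autoImplicit false

namespace Pool.Agent.R623.Gam

open Pool.Agent.Results.MP_65fbb9_lc.Coincidence

/-- the sign of a binary digit -/
def sg (k : ℕ) : ℝ := 1 - 2 * k

theorem sg_mul {a b : ℕ} (ha : a < 2) (hb : b < 2) :
    sg a * sg b = 1 - 2 * ind (!(decide (a = b))) := by
  unfold sg
  have h1 : a = 0 ∨ a = 1 := by omega
  have h2 : b = 0 ∨ b = 1 := by omega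
  rcases h1 with rfl | rfl <;> rcases h2 with rfl | rfl <;> norm_num [ind]

theorem ip_eq {f g : ℕ → ℕ} (hf : ∀ i, f i < 2) (hg : ∀ i, g i < 2) (N : ℕ) :
    ∑ i ∈ Finset.range N, sg (f i) * sg (g i) = (N : ℝ) - 2 * dd f g N := by
  unfold dd
  rw [nsum_eq]
  push_cast
  rw [Finset.mul_sum]
  have h1 : (N : ℝ) = ∑ _i ∈ Finset.range N, (1 : ℝ) := by simp
  rw [h1, ← Finset.sum_sub_distrib]
  exact Finset.sum_congr rfl fun i _ => sg_mul (hf i) (hg i)

theorem sg_sq {a : ℕ} (ha : a < 2) : sg a ^ 2 = 1 := by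
  have h1 : a = 0 ∨ a = 1 := by omega
  rcases h1 with rfl | rfl <;> norm_num [sg]

theorem few {N : ℕ} (hN : 0 < N) {w : ℕ → ℕ → ℕ} (hw : ∀ a i, w a i < 2) {y : ℕ → ℕ}
    (hy : ∀ i, y i < 2) {d e : ℝ} (hd : 0 ≤ d) (he : 0 ≤ e) (T : Finset ℕ)
    (hT : ∀ a ∈ T, ∀ b ∈ T, a ≠ b → |(N : ℝ) - 2 * dd (w a) (w b) N| ≤ d * N)
    (hyT : ∀ a ∈ T, e * N ≤ |(N : ℝ) - 2 * dd y (w a) N|) : T.card * (e ^ 2 - d) ≤ 1 := by
  classical
  rcases Nat.eq_zero_or_pos T.card with h0 | hpos
  · rw [h0]; norm_num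
  obtain ⟨s, hs⟩ : ∃ s : ℕ → ℝ, ∀ a, s a = if 0 ≤ (N : ℝ) - 2 * dd y (w a) N then 1 else -1 :=
    ⟨_, fun _ => rfl⟩
  have hs2 : ∀ a, s a = 1 ∨ s a = -1 := by
    intro a
    rw [hs]
    split_ifs <;> simp
  have hsip : ∀ a, s a * ((N : ℝ) - 2 * dd y (w a) N) = |(N : ℝ) - 2 * dd y (w a) N| := by
    intro a
    rw [hs]
    split_ifs with h
    · rw [one_mul, abs_of_nonneg h]
    · rw [abs_of_neg (not_le.1 h)]
      ring
  obtain ⟨g, hg⟩ : ∃ g : ℕ → ℝ, ∀ i, g i = ∑ a ∈ T, s a * sg (w a i) := ⟨_, fun _ => rfl⟩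
  have h1 : ∑ i ∈ Finset.range N, sg (y i) * g i = ∑ a ∈ T, |(N : ℝ) - 2 * dd y (w a) N| := by
    calc ∑ i ∈ Finset.range N, sg (y i) * g i
        = ∑ i ∈ Finset.range N, ∑ a ∈ T, s a * (sg (y i) * sg (w a i)) := by
          refine Finset.sum_congr rfl fun i _ => ?_
          rw [hg, Finset.mul_sum]
          refine Finset.sum_congr rfl fun a _ => ?_
          ring
      _ = ∑ a ∈ T, ∑ i ∈ Finset.range N, s a * (sg (y i) * sg (w a i)) := Finset.sum_comm
      _ = ∑ a ∈ T, |(N : ℝ) - 2 * dd y (w a) N| := by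
          refine Finset.sum_congr rfl fun a _ => ?_
          rw [← Finset.mul_sum, ip_eq hy (hw a), hsip]
  have h2 : (T.card : ℝ) * (e * N) ≤ ∑ i ∈ Finset.range N, sg (y i) * g i := by
    rw [h1, ← nsmul_eq_mul]
    exact Finset.card_nsmul_le_sum T _ _ hyT
  have h3 := Finset.sum_mul_sq_le_sq_mul_sq (Finset.range N) (fun i => sg (y i)) g
  have h4 : ∑ i ∈ Finset.range N, sg (y i) ^ 2 = N := by
    rw [Finset.sum_congr rfl fun i _ => sg_sq (hy i)]
    simp
  have h5 : ∑ i ∈ Finset.range N, g i ^ 2 ≤ T.card * N + T.card ^ 2 * (d * N) := by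
    have e1 : ∑ i ∈ Finset.range N, g i ^ 2 =
        ∑ a ∈ T, ∑ b ∈ T, s a * s b * ((N : ℝ) - 2 * dd (w a) (w b) N) := by
      calc ∑ i ∈ Finset.range N, g i ^ 2
          = ∑ i ∈ Finset.range N, ∑ a ∈ T, ∑ b ∈ T, s a * s b * (sg (w a i) * sg (w b i)) := by
            refine Finset.sum_congr rfl fun i _ => ?_
            rw [hg, sq, Finset.sum_mul_sum]
            refine Finset.sum_congr rfl fun a _ => Finset.sum_congr rfl fun b _ => ?_
            ring
        _ = ∑ a ∈ T, ∑ i ∈ Finset.range N, ∑ b ∈ T, s a * s b * (sg (w a i) * sg (w b i)) :=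
            Finset.sum_comm
        _ = ∑ a ∈ T, ∑ b ∈ T, ∑ i ∈ Finset.range N, s a * s b * (sg (w a i) * sg (w b i)) := by
            refine Finset.sum_congr rfl fun a _ => Finset.sum_comm
        _ = _ := by
            refine Finset.sum_congr rfl fun a _ => Finset.sum_congr rfl fun b _ => ?_
            rw [← Finset.mul_sum, ip_eq (hw a) (hw b)]
    rw [e1]
    have e2 : ∀ a ∈ T, ∑ b ∈ T, s a * s b * ((N : ℝ) - 2 * dd (w a) (w b) N) ≤
        N + T.card * (d * N) := by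
      intro a ha
      have e3 : ∀ b ∈ T, s a * s b * ((N : ℝ) - 2 * dd (w a) (w b) N) ≤
          (if a = b then (N : ℝ) else 0) + d * N := by
        intro b hb
        have hab : |s a * s b| = 1 := by
          rcases hs2 a with h | h <;> rcases hs2 b with h' | h' <;> rw [h, h'] <;> norm_num
        have hle : s a * s b * ((N : ℝ) - 2 * dd (w a) (w b) N) ≤
            |(N : ℝ) - 2 * dd (w a) (w b) N| := by
          refine (le_abs_self _).trans ?_
          rw [abs_mul, hab, one_mul]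
        have hdN : 0 ≤ d * N := by positivity
        split_ifs with h
        · have h6 : |(N : ℝ) - 2 * dd (w a) (w b) N| ≤ N := by
            have h7 : (dd (w a) (w b) N : ℝ) ≤ N := by exact_mod_cast dd_le _ _ _
            have h8 : (0 : ℝ) ≤ dd (w a) (w b) N := Nat.cast_nonneg _
            rw [abs_le]
            constructor <;> linarith
          linarith
        · have h6 := hT a ha b hb h
          linarith
      calc ∑ b ∈ T, s a * s b * ((N : ℝ) - 2 * dd (w a) (w b) N)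
          ≤ ∑ b ∈ T, ((if a = b then (N : ℝ) else 0) + d * N) := Finset.sum_le_sum e3
        _ = N + T.card * (d * N) := by
            rw [Finset.sum_add_distrib, Finset.sum_ite_eq, if_pos ha, Finset.sum_const,
              nsmul_eq_mul]
    calc ∑ a ∈ T, ∑ b ∈ T, s a * s b * ((N : ℝ) - 2 * dd (w a) (w b) N)
        ≤ ∑ _a ∈ T, ((N : ℝ) + T.card * (d * N)) := Finset.sum_le_sum e2
      _ = T.card * N + T.card ^ 2 * (d * N) := by
          rw [Finset.sum_const, nsmul_eq_mul]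
          ring
  rw [h4] at h3
  have hNr : (0 : ℝ) < N := by exact_mod_cast hN
  have hcr : (0 : ℝ) < T.card := by exact_mod_cast hpos
  have h6 : ((T.card : ℝ) * (e * N)) ^ 2 ≤ N * (T.card * N + T.card ^ 2 * (d * N)) := by
    refine (pow_le_pow_left₀ (by positivity) h2 2).trans (h3.trans ?_)
    exact mul_le_mul_of_nonneg_left h5 hNr.le
  have h7 : ((T.card : ℝ) * N ^ 2) * (T.card * e ^ 2) ≤
      ((T.card : ℝ) * N ^ 2) * (1 + T.card * d) := by
    calc ((T.card : ℝ) * N ^ 2) * (T.card * e ^ 2) = ((T.card : ℝ) * (e * N)) ^ 2 := by ring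
      _ ≤ _ := h6
      _ = _ := by ring
  have h8 := le_of_mul_le_mul_left h7 (by positivity)
  linarith

end Pool.Agent.R623.Gam
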