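import Pool.Agent.R623.G.List

/-!
# The parameters and the codes
-/

set_option autoImplicit false

namespace Pool.Agent.R623.Gam

open Pool.Agent.Results.MP_65fbb9_lc.Coincidence

/-- number of digits of a slot -/
def BB (n : ℕ) : ℕ := 2 ^ Nat.sqrt n

/-- number of code words -/
def MM (n : ℕ) : ℕ := 2 ^ (BB n * (n + 1))

/-- length of a block -/
def LL (n : ℕ) : ℕ := 4 * ((n + 1) * (n + 1) * ((n + 1) * (n + 1))) * BB n

/-- number of slots -/
def KK (n : ℕ) : ℕ := n + 1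

theorem BB_pos (n : ℕ) : 0 < BB n := by unfold BB; positivity

theorem LL_pos (n : ℕ) : 0 < LL n := by
  have := BB_pos n
  unfold LL
  positivity

theorem KK_pos (i : ℕ) : 0 < KK i := Nat.succ_pos i

theorem nsum_congr {f g : ℕ → ℕ} {n : ℕ} (h : ∀ k < n, f k = g k) : nsum n f = nsum n g := by
  rw [nsum_eq, nsum_eq]
  exact Finset.sum_congr rfl fun k hk => h k (Finset.mem_range.1 hk)

theorem exp_bound (n : ℕ) :
    2 * (MM n : ℝ) < Real.exp ((LL n : ℝ) * (1 / ((n : ℝ) + 1)) ^ 2 / 2) := by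
  have hn : (0 : ℝ) < (n : ℝ) + 1 := by positivity
  have e1 : (LL n : ℝ) * (1 / ((n : ℝ) + 1)) ^ 2 / 2 = 2 * (n + 1) ^ 2 * BB n := by
    unfold LL
    push_cast
    field_simp
    ring
  rw [e1]
  have e2 : 2 * (MM n : ℝ) = 2 ^ (1 + BB n * (n + 1)) := by
    unfold MM
    push_cast
    rw [pow_add, pow_one]
  rw [e2]
  have h2 : (2 : ℝ) < Real.exp 1 := by
    have := Real.exp_one_gt_d9
    linarith
  have h3 : (2 : ℝ) ^ (1 + BB n * (n + 1)) < Real.exp 1 ^ (1 + BB n * (n + 1)) :=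
    pow_lt_pow_left₀ h2 (by norm_num) (by omega)
  refine h3.trans_le ?_
  rw [← Real.exp_nat_mul, mul_one]
  apply Real.exp_le_exp.2
  have hB := BB_pos n
  have h4 : 1 + BB n * (n + 1) ≤ 2 * (n + 1) ^ 2 * BB n := by
    have h5 : 1 ≤ (n + 1) ^ 2 * BB n := Nat.one_le_iff_ne_zero.2 (by positivity)
    have h6 : BB n * (n + 1) ≤ (n + 1) ^ 2 * BB n := by
      rw [mul_comm]
      exact Nat.mul_le_mul_right _ (by nlinarith)
    have h7 : 2 * (n + 1) ^ 2 * BB n = (n + 1) ^ 2 * BB n + (n + 1) ^ 2 * BB n := by ring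
    omega
  exact_mod_cast h4

/-- `E` is a good code -/
def good' (n E : ℕ) : Bool :=
  ball (MM n) fun a => ball a fun b =>
    decide ((n + 1) * ((LL n - 2 * dd (cw E (LL n) a) (cw E (LL n) b) (LL n)) +
      (2 * dd (cw E (LL n) a) (cw E (LL n) b) (LL n) - LL n)) ≤ LL n)

theorem abs_cast (N D : ℕ) : ((N - 2 * D + (2 * D - N) : ℕ) : ℝ) = |(N : ℝ) - 2 * D| := by
  rcases Nat.le_total (2 * D) N with h | h
  · rw [Nat.sub_eq_zero_of_le h, add_zero, Nat.cast_sub h, abs_of_nonneg]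
    · push_cast
      ring
    · have : ((2 * D : ℕ) : ℝ) ≤ N := by exact_mod_cast h
      push_cast at this
      linarith
  · rw [Nat.sub_eq_zero_of_le h, zero_add, Nat.cast_sub h, abs_of_nonpos]
    · push_cast
      ring
    · have : (N : ℝ) ≤ ((2 * D : ℕ) : ℝ) := by exact_mod_cast h
      push_cast at this
      linarith

theorem le_iff_ort (n N : ℕ) (f g : ℕ → ℕ) :
    (n + 1) * ((N - 2 * dd f g N) + (2 * dd f g N - N)) ≤ N ↔
      Ort (1 / ((n : ℝ) + 1)) f g N := by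
  unfold Ort
  rw [← abs_cast, ← Nat.cast_le (α := ℝ), Nat.cast_mul]
  have hn : (0 : ℝ) < (n : ℝ) + 1 := by positivity
  rw [div_mul_eq_mul_div, one_mul, le_div_iff₀ hn]
  push_cast
  rw [mul_comm]

theorem good'_iff (n E : ℕ) : good' n E = true ↔ ∀ a < MM n, ∀ b < a,
    Ort (1 / ((n : ℝ) + 1)) (cw E (LL n) a) (cw E (LL n) b) (LL n) := by
  unfold good'
  rw [ball_iff]
  refine forall₂_congr fun a _ => ?_
  rw [ball_iff]
  refine forall₂_congr fun b _ => ?_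
  rw [decide_eq_true_eq, le_iff_ort]

theorem exists_good' (n : ℕ) : ∃ E, good' n E = true := by
  obtain ⟨E, -, h⟩ := exists_codeR (d := 1 / ((n : ℝ) + 1)) (by positivity) (LL n) (MM n)
    (exp_bound n) (MM n) le_rfl
  exact ⟨E, (good'_iff n E).2 h⟩

section comp

variable {α : Type} [Primcodable α] {O : Set (ℕ →. ℕ)}

theorem cBB {f : α → ℕ} (hf : ComputableIn O f) : ComputableIn O fun a => BB (f a) :=
  cpw 2 (f := fun a => Nat.sqrt (f a)) (ci_compC (f := Nat.sqrt) Primrec.nat_sqrt.to_comp hf)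

theorem cMM {f : α → ℕ} (hf : ComputableIn O f) : ComputableIn O fun a => MM (f a) :=
  cpw 2 (f := fun a => BB (f a) * (f a + 1)) (cmul (cBB hf) (cadd hf (cconst 1)))

theorem cLL {f : α → ℕ} (hf : ComputableIn O f) : ComputableIn O fun a => LL (f a) := by
  have h1 : ComputableIn O fun a => f a + 1 := cadd hf (cconst 1)
  exact cmul (cmul (cconst 4) (cmul (cmul h1 h1) (cmul h1 h1))) (cBB hf)

theorem cKK {f : α → ℕ} (hf : ComputableIn O f) : ComputableIn O fun a => KK (f a) :=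
  cadd hf (cconst 1)

theorem cgood' {O : Set (ℕ →. ℕ)} : ComputableIn O fun p : ℕ × ℕ => good' p.1 p.2 := by
  -- variables: (((n, E), a), b), i
  have hn : ComputableIn O fun q : (((ℕ × ℕ) × ℕ) × ℕ) => q.1.1.1 :=
    ci_comp ci_fst (ci_comp ci_fst ci_fst)
  have hL : ComputableIn O fun q : (((ℕ × ℕ) × ℕ) × ℕ) => LL q.1.1.1 := cLL hn
  have hL' : ComputableIn O fun q : (((ℕ × ℕ) × ℕ) × ℕ) × ℕ => LL q.1.1.1.1 :=
    ci_comp (f := fun q : (((ℕ × ℕ) × ℕ) × ℕ) => LL q.1.1.1) hL ci_fst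
  have hE : ComputableIn O fun q : (((ℕ × ℕ) × ℕ) × ℕ) × ℕ => q.1.1.1.2 :=
    ci_comp ci_snd (ci_comp ci_fst (ci_comp ci_fst ci_fst))
  have ha : ComputableIn O fun q : (((ℕ × ℕ) × ℕ) × ℕ) × ℕ => q.1.1.2 :=
    ci_comp ci_snd (ci_comp ci_fst ci_fst)
  have hb : ComputableIn O fun q : (((ℕ × ℕ) × ℕ) × ℕ) × ℕ => q.1.2 := ci_comp ci_snd ci_fst
  have h1 : ComputableIn O fun q : (((ℕ × ℕ) × ℕ) × ℕ) × ℕ =>
      cw q.1.1.1.2 (LL q.1.1.1.1) q.1.1.2 q.2 := ccw hE hL' ha ci_snd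
  have h2 : ComputableIn O fun q : (((ℕ × ℕ) × ℕ) × ℕ) × ℕ =>
      cw q.1.1.1.2 (LL q.1.1.1.1) q.1.2 q.2 := ccw hE hL' hb ci_snd
  have h3 : ComputableIn O fun q : (((ℕ × ℕ) × ℕ) × ℕ) =>
      dd (cw q.1.1.2 (LL q.1.1.1) q.1.2) (cw q.1.1.2 (LL q.1.1.1) q.2)
        (LL q.1.1.1) :=
    cdd (f := fun q : (((ℕ × ℕ) × ℕ) × ℕ) => cw q.1.1.2 (LL q.1.1.1) q.1.2)
      (g := fun q : (((ℕ × ℕ) × ℕ) × ℕ) => cw q.1.1.2 (LL q.1.1.1) q.2) h1 h2 hL
  have h4 := cmul (cconst (O := O) (α := (((ℕ × ℕ) × ℕ) × ℕ)) 2) h3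
  have h5 := cle (cmul (cadd hn (cconst 1)) (cadd (csub hL h4) (csub h4 hL))) hL
  have h6 := ball_comp (O := O) (g := fun q : ((ℕ × ℕ) × ℕ) => q.2)
    (q := fun (q : (ℕ × ℕ) × ℕ) (b : ℕ) => decide ((q.1.1 + 1) *
      ((LL q.1.1 - 2 * dd (cw q.1.2 (LL q.1.1) q.2) (cw q.1.2 (LL q.1.1) b) (LL q.1.1)) +
      (2 * dd (cw q.1.2 (LL q.1.1) q.2) (cw q.1.2 (LL q.1.1) b) (LL q.1.1) - LL q.1.1)) ≤
        LL q.1.1)) ci_snd h5
  exact ball_comp (g := fun p : ℕ × ℕ => MM p.1)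
    (q := fun (p : ℕ × ℕ) (a : ℕ) => ball a fun b => decide ((p.1 + 1) *
      ((LL p.1 - 2 * dd (cw p.2 (LL p.1) a) (cw p.2 (LL p.1) b) (LL p.1)) +
      (2 * dd (cw p.2 (LL p.1) a) (cw p.2 (LL p.1) b) (LL p.1) - LL p.1)) ≤
        LL p.1)) (cMM ci_fst) h6

end comp

theorem exists_codes' : ∃ E : ℕ → ℕ, Computable E ∧ ∀ n, ∀ a < MM n, ∀ b < a,
    Ort (1 / ((n : ℝ) + 1)) (cw (E n) (LL n) a) (cw (E n) (LL n) b) (LL n) := by
  have h : Computable₂ good' := computable_of_ci cgood'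
  obtain ⟨E, hE, hg⟩ := search h exists_good'
  exact ⟨E, hE, fun n => (good'_iff n (E n)).1 (hg n)⟩

/-! ### Blocks -/

/-- the number of the block containing `t` -/
def blk (L : ℕ → ℕ) (t : ℕ) : ℕ := nsum (t + 1) fun k => ind (decide (nsum (k + 1) L ≤ t))

theorem nsum_succ (L : ℕ → ℕ) (n : ℕ) : nsum (n + 1) L = nsum n L + L n := rfl

theorem nsum_mono (L : ℕ → ℕ) {m n : ℕ} (h : m ≤ n) : nsum m L ≤ nsum n L := by
  induction h with
  | refl => exact le_rfl
  | step _ ih => rw [nsum_succ]; omega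

theorem le_nsum {L : ℕ → ℕ} (hL : ∀ i, 0 < L i) (n : ℕ) : n ≤ nsum n L := by
  induction n with
  | zero => exact Nat.zero_le _
  | succ n ih =>
    rw [nsum_succ]
    have := hL n
    omega

theorem blk_eq {L : ℕ → ℕ} (hL : ∀ i, 0 < L i) {n t : ℕ} (h1 : nsum n L ≤ t)
    (h2 : t < nsum (n + 1) L) : blk L t = n := by
  unfold blk
  rw [nsum_ind]
  have h3 : (Finset.range (t + 1)).filter
      (fun k => decide (nsum (k + 1) L ≤ t) = true) = Finset.range n := by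
    ext k
    rw [Finset.mem_filter, Finset.mem_range, Finset.mem_range, decide_eq_true_eq]
    constructor
    · rintro ⟨_, h⟩
      by_contra hc
      have := nsum_mono L (show n + 1 ≤ k + 1 by omega)
      omega
    · intro h
      have h4 := nsum_mono L (show k + 1 ≤ n by omega)
      have h5 := le_nsum hL (k + 1)
      omega
  rw [h3, Finset.card_range]

theorem blk_spec {L : ℕ → ℕ} (hL : ∀ i, 0 < L i) (t : ℕ) :
    nsum (blk L t) L ≤ t ∧ t < nsum (blk L t + 1) L := by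
  have hex : ∃ n, t < nsum (n + 1) L := ⟨t, by have := le_nsum hL (t + 1); omega⟩
  have h1 := Nat.find_spec hex
  have h2 : nsum (Nat.find hex) L ≤ t := by
    rcases Nat.eq_zero_or_pos (Nat.find hex) with h | h
    · rw [h]
      exact Nat.zero_le _
    · have h3 := Nat.find_min hex (show Nat.find hex - 1 < Nat.find hex by omega)
      rw [show Nat.find hex - 1 + 1 = Nat.find hex by omega] at h3
      omega
  rw [blk_eq hL h2 h1]
  exact ⟨h2, h1⟩

theorem cnsum {α : Type} [Primcodable α] {O : Set (ℕ →. ℕ)} {L : ℕ → ℕ} (hL : ComputableIn O L)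
    {f : α → ℕ} (hf : ComputableIn O f) : ComputableIn O fun a => nsum (f a) L :=
  nsum_comp (g := f) (q := fun _ i => L i) hf (ci_comp (f := L) hL ci_snd)

theorem cblk {α : Type} [Primcodable α] {O : Set (ℕ →. ℕ)} {L : ℕ → ℕ} (hL : ComputableIn O L)
    {f : α → ℕ} (hf : ComputableIn O f) : ComputableIn O fun a => blk L (f a) :=
  nsum_comp (g := fun a => f a + 1) (q := fun a k => ind (decide (nsum (k + 1) L ≤ f a)))
    (cadd hf (cconst 1))
    (cind (cle (cnsum (f := fun p : α × ℕ => p.2 + 1) hL (cadd ci_snd (cconst 1)))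
      (ci_comp (f := f) hf ci_fst)))

/-! ### Digits -/

theorem digs_lt {c : ℕ → ℕ} {D : ℕ} (hc : ∀ j, c j < D) (k : ℕ) :
    nsum k (fun j => c j * D ^ j) < D ^ k := by
  induction k with
  | zero => simp [nsum]
  | succ k ih =>
    rw [nsum_succ, pow_succ]
    have h1 : (c k + 1) * D ^ k ≤ D * D ^ k := Nat.mul_le_mul_right _ (hc k)
    nlinarith

theorem digs_get {c : ℕ → ℕ} {D : ℕ} (hc : ∀ j, c j < D) {k j : ℕ} (hj : j < k) :
    nsum k (fun j => c j * D ^ j) / D ^ j % D = c j := by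
  have hD : 0 < D := lt_of_le_of_lt (Nat.zero_le _) (hc 0)
  induction k with
  | zero => omega
  | succ k ih =>
    rw [nsum_succ]
    rcases Nat.lt_succ_iff_lt_or_eq.1 hj with h | h
    · have e1 : D ^ k = D ^ j * (D * D ^ (k - j - 1)) := by
        rw [← pow_succ', ← pow_add]
        congr 1
        omega
      have e2 : nsum k (fun j => c j * D ^ j) + c k * D ^ k =
          nsum k (fun j => c j * D ^ j) + D ^ j * (D * (D ^ (k - j - 1) * c k)) := by
        rw [e1]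
        ring
      rw [e2, Nat.add_mul_div_left _ _ (by positivity), Nat.add_mul_mod_self_left, ih h]
    · subst h
      rw [Nat.add_mul_div_right _ _ (by positivity), Nat.div_eq_of_lt (digs_lt hc j), zero_add,
        Nat.mod_eq_of_lt (hc j)]

end Pool.Agent.R623.Gam
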